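import Pool.Agent.H22.P2e

open Pool.Agent.H38.NP Pool.Agent.H22.P2

theorem Pool.Agent.Results.MP_df8bb0_lc.Poly.result :
    ∃ g : ℕ × List (Bin × Bin) → Bin, PolyTimeOn (fun _ => True) g ∧
      ∀ p J, IsLeast (Values p J) (((g (p, J)).val : ℝ) / 2) :=
  ⟨fun q => opt2 q.1 q.2, PT.polyTimeOn (by fun_prop) _, opt2_least⟩
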